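import Pool.Agent.V5helper63.NP.Stm

/-!
# Job B5 of project NP
-/

set_option autoImplicit false

namespace Pool.Agent.V5helper82.NP

open Pool.Agent.V5helper63.NP

theorem big (p : ℤ) (hp : 3 ≤ p) : ∀ n : ℕ,
    (p ^ 2 - 1) * (p + 1) * ((n : ℤ) + 6) ≤ 2 * p ^ (n + 5)
  | 0 => by
    have h1 : (3 : ℤ) * p ^ 2 ≤ p ^ 3 := by nlinarith [sq_nonneg p]
    have h2 : (9 : ℤ) * p ^ 3 ≤ p ^ 5 := by nlinarith [pow_pos (by linarith : (0 : ℤ) < p) 3]
    have h3 : (p ^ 2 - 1) * (p + 1) * (((0 : ℕ) : ℤ) + 6) = 6 * (p ^ 3 + p ^ 2 - p - 1) := by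
      push_cast
      ring
    rw [h3, zero_add]
    nlinarith [pow_pos (by linarith : (0 : ℤ) < p) 3]
  | n + 1 => by
    have ih := big p hp n
    have h0 : (0 : ℤ) < (p ^ 2 - 1) * (p + 1) := by
      have : (0 : ℤ) < p ^ 2 - 1 := by nlinarith
      exact mul_pos this (by linarith)
    have h1 : (p ^ 2 - 1) * (p + 1) * (((n + 1 : ℕ) : ℤ) + 6) ≤
        (p ^ 2 - 1) * (p + 1) * ((n : ℤ) + 6) * 3 := by
      push_cast
      nlinarith [Int.natCast_nonneg n]
    have h2 : (0 : ℤ) < p ^ (n + 5) := pow_pos (by linarith) _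
    have h3 : 2 * p ^ (n + 5) * 3 ≤ 2 * p ^ (n + 1 + 5) := by
      have e : p ^ (n + 1 + 5) = p ^ (n + 5) * p := by ring
      rw [e]
      nlinarith
    linarith [mul_le_mul_of_nonneg_right ih (by norm_num : (0 : ℤ) ≤ 3)]

theorem t_B5 (hV2 : S_V2) : S_B5 := by
  intro k m p a c hp hp3 hm hac hck hN hE
  have hodd : Odd p := hp.odd_of_ne_two (by omega)
  have hP3 : (3 : ℤ) ≤ p := by exact_mod_cast hp3
  unfold Eqn at hE
  obtain ⟨P, hP⟩ : ∃ P : ℤ, P = (p : ℤ) := ⟨_, rfl⟩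
  obtain ⟨N, hNd⟩ : ∃ N : ℤ, N = 2 ^ (k + 1) := ⟨_, rfl⟩
  obtain ⟨A, hA⟩ : ∃ A : ℤ, A = 2 ^ a := ⟨_, rfl⟩
  obtain ⟨C, hC⟩ : ∃ C : ℤ, C = 2 ^ c := ⟨_, rfl⟩
  obtain ⟨T, hT⟩ : ∃ T : ℤ, T = N - P - (P - 1) * (A + C) := ⟨_, rfl⟩
  rw [← hP, ← hNd, ← hA, ← hC] at hE
  rw [← hP] at hP3
  have hA0 : 0 < A := by rw [hA]; positivity
  have hC0 : 0 < C := by rw [hC]; positivity
  have hN1 : 2 * P < N := by
    rw [hP, hNd]
    exact_mod_cast hN
  have hPm : 0 < P ^ m := pow_pos (by linarith) m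
  have hmain : P ^ m * T = N - 1 := by
    rw [hT]
    linear_combination hE
  have hT0 : 0 < T := by
    by_contra hcon
    push Not at hcon
    have h1 : P ^ m * T ≤ 0 := mul_nonpos_of_nonneg_of_nonpos hPm.le hcon
    linarith
  -- step 1
  obtain ⟨j, hj⟩ : ∃ j, k + 1 = c + (j + 1) := ⟨k - c, by omega⟩
  have hNC : N = C * 2 ^ (j + 1) := by rw [hNd, hC, hj, pow_add]
  have h1 : C * (P - 1) < C * 2 ^ (j + 1) := by
    rw [← hNC]
    have : 0 < (P - 1) * A := mul_pos (by linarith) hA0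
    nlinarith
  have h2 : P - 1 < 2 ^ (j + 1) := lt_of_mul_lt_mul_left h1 hC0.le
  have h3 : P ≠ 2 ^ (j + 1) := by
    intro h
    rw [hP] at h
    have h4 : p = 2 ^ (j + 1) := by exact_mod_cast h
    have h5 : Even p := by
      rw [h4, pow_succ]
      exact ⟨2 ^ j, by ring⟩
    exact (Nat.not_even_iff_odd.2 hodd) h5
  have h4 : P + 1 ≤ 2 ^ (j + 1) := by
    have : P ≤ 2 ^ (j + 1) := by linarith
    have := lt_of_le_of_ne this h3
    linarith
  have h5 : (P + 1) * C ≤ N := by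
    rw [hNC, mul_comm]
    exact mul_le_mul_of_nonneg_left h4 hC0.le
  -- step 2
  have h6 : 2 * N - (P + 1) * (P + T) ≤ (P ^ 2 - 1) * A := by
    have h7 : (P - 1) * ((P + 1) * C) ≤ (P - 1) * N :=
      mul_le_mul_of_nonneg_left h5 (by linarith)
    have h8 : (P + 1) * T = (P + 1) * N - (P + 1) * P - (P ^ 2 - 1) * A -
        (P - 1) * ((P + 1) * C) := by
      rw [hT]
      ring
    nlinarith
  -- step 3
  have h9 : P ^ 3 * T ≤ N - 1 := by
    rw [← hmain]
    exact mul_le_mul_of_nonneg_right (pow_le_pow_right₀ (by linarith) hm) hT0.le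
  have hP2 : 9 ≤ P ^ 2 := by nlinarith
  have hP3' : 3 * P ^ 2 ≤ P ^ 3 := by nlinarith
  have h10 : (P + 1) * (P + T) < N := by
    have h11 : (P ^ 3 - P - 1) * 1 ≤ (P ^ 3 - P - 1) * T :=
      mul_le_mul_of_nonneg_left (by linarith) (by nlinarith)
    nlinarith
  have h12 : N < (P ^ 2 - 1) * A := by linarith
  have h13 : P ^ 3 < N := by
    have : P ^ 3 * 1 ≤ P ^ 3 * T := mul_le_mul_of_nonneg_left (by linarith) (by positivity)
    linarith
  -- step 4
  have hdiv : 2 ^ a ∣ ∑ i ∈ Finset.range (m + 1), p ^ i := by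
    have g1 := mul_geom_sum P m
    have g2 := mul_geom_sum P (m + 1)
    have g3 : (P - 1) * ∑ i ∈ Finset.range (m + 1), P ^ i =
        (P - 1) * (N * ∑ i ∈ Finset.range m, P ^ i - A * P ^ m - C * P ^ m) := by
      rw [g2]
      have : (P - 1) * (N * ∑ i ∈ Finset.range m, P ^ i - A * P ^ m - C * P ^ m) =
          N * ((P - 1) * ∑ i ∈ Finset.range m, P ^ i) - (P - 1) * (A * P ^ m + C * P ^ m) := by
        ring
      rw [this, g1]
      linear_combination (-1 : ℤ) * hE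
    have g4 : ∑ i ∈ Finset.range (m + 1), P ^ i =
        N * ∑ i ∈ Finset.range m, P ^ i - A * P ^ m - C * P ^ m :=
      mul_left_cancel₀ (by linarith : P - 1 ≠ 0) g3
    have g5 : A ∣ ∑ i ∈ Finset.range (m + 1), P ^ i := by
      rw [g4]
      have e1 : A ∣ N := by
        rw [hA, hNd]
        exact pow_dvd_pow 2 (by omega)
      have e2 : A ∣ C := by
        rw [hA, hC]
        exact pow_dvd_pow 2 (by omega)
      exact dvd_sub (dvd_sub (dvd_mul_of_dvd_left e1 _) (dvd_mul_right _ _))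
        (dvd_mul_of_dvd_left e2 _)
    rw [hA, hP] at g5
    exact_mod_cast g5
  obtain ⟨v1, v2⟩ := hV2 m p a hodd hp3 hdiv
  -- step 5
  rcases Nat.even_or_odd m with hev | hom
  · have ha : a = 0 := v1 hev
    have hA1 : A = 1 := by rw [hA, ha, pow_zero]
    rw [hA1] at h12
    nlinarith
  · have v3 : 2 * A ≤ (P + 1) * ((m : ℤ) + 1) := by
      have : ((2 ^ (a + 1) : ℕ) : ℤ) ≤ (((p + 1) * (m + 1) : ℕ) : ℤ) := by exact_mod_cast v2
      push_cast at this
      rw [hA, hP]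
      rw [pow_succ] at this
      linarith
    have v4 : 2 * N < (P ^ 2 - 1) * (P + 1) * ((m : ℤ) + 1) := by
      have : (P ^ 2 - 1) * (2 * A) ≤ (P ^ 2 - 1) * ((P + 1) * ((m : ℤ) + 1)) :=
        mul_le_mul_of_nonneg_left v3 (by linarith)
      linarith
    by_cases hm5 : 5 ≤ m
    · obtain ⟨n, hn⟩ : ∃ n, m = n + 5 := ⟨m - 5, by omega⟩
      have b1 := big P hP3 n
      have b2 : (m : ℤ) + 1 = (n : ℤ) + 6 := by
        rw [hn]
        push_cast
        ring
      rw [b2] at v4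
      have b3 : P ^ m * 1 ≤ P ^ m * T := mul_le_mul_of_nonneg_left (by linarith) hPm.le
      rw [hn] at b3 hmain
      linarith
    · have hm3 : m = 3 := by
        obtain ⟨r, hr⟩ := hom
        omega
      subst hm3
      have v5 : 2 * N < (P ^ 2 - 1) * (P + 1) * 4 := by
        have e : ((3 : ℕ) : ℤ) + 1 = 4 := by norm_num
        rw [e] at v4
        exact v4
      have hT2 : T ≤ 2 := by
        by_contra hcon
        push Not at hcon
        have : P ^ 3 * 3 ≤ P ^ 3 * T := mul_le_mul_of_nonneg_left (by linarith) (by positivity)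
        nlinarith
      have hT1 : T = 1 := by
        rcases (by omega : T = 1 ∨ T = 2) with h | h
        · exact h
        · exfalso
          rw [h, hNd, pow_succ] at hmain
          omega
      rw [hT1, mul_one] at hmain
      have hq : (p + 1) * (p * (p - 1) + 1) = 2 ^ (k + 1) := by
        have e1 : ((p - 1 : ℕ) : ℤ) = (p : ℤ) - 1 := by
          rw [Nat.cast_sub (by omega)]
          norm_num
        have e2 : (((p + 1) * (p * (p - 1) + 1) : ℕ) : ℤ) = ((2 ^ (k + 1) : ℕ) : ℤ) := by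
          push_cast
          rw [e1, ← hNd, ← hP]
          linear_combination hmain
        exact_mod_cast e2
      obtain ⟨i, _, hi⟩ := (Nat.dvd_prime_pow Nat.prime_two).1 (Dvd.intro_left _ hq)
      have hqodd : Odd (p * (p - 1) + 1) := by
        refine Even.add_one ?_
        exact Nat.even_mul_pred_self p
      rcases Nat.eq_zero_or_pos i with h0 | h0
      · rw [h0, pow_zero] at hi
        have : 0 < p * (p - 1) := Nat.mul_pos (by omega) (by omega)
        omega
      · rw [hi] at hqodd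
        have : Even (2 ^ i) := (Nat.even_pow.2 ⟨even_two, h0.ne'⟩)
        exact (Nat.not_even_iff_odd.2 hqodd) this

end Pool.Agent.V5helper82.NP
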